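import Pool.Agent.Helper2.M3.Main
import Pool.Agent.Helper73.Twin3
import Pool.Agent.Helper73.Eq3.S5

/-!
# Mahler's conjecture for general convex bodies in dimension three

For every convex body `K` of `ℝ³`, in any position, `M(K) = |K| ∫ exp (-h_K)` is at least
`128/3 = 4⁴/3!`, the value of the simplex with its centroid at the origin; in other words
`|K| |K°| ≥ 64/9` for every convex body with the origin in its interior.

Proof.  Let `v = V(K, K, -K)/|K|`, `twin K = conv (K × {1} ∪ (-K) × {-1})`, of volume `(1+v) |K|`,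
and `sec K = {(s, y) : y ∈ (1-s) K, -y ∈ (1+s) K}`.  The symmetric Mahler inequality in `ℝ⁴`
(library) for `twin K` and for `twin K°`, whose polars are `sec K°` and `sec K`, reduces the theorem
to the one-body inequality `|twin K| |sec K| ≤ (3/2) |K|²`.  Let `S_s = (1-s) K ∩ -(1+s) K` be the
sections of `sec K`, and for `α > 0`, `β ≥ 0` let `B` be the Blaschke sum of `K` and `-K`, that is
`V(M, B, B) = α V(M, K, K) + β V(M, -K, -K)` for all `M` (its existence is proved from a
variational principle).  Minkowski's inequality gives `|S_s| |B|² ≤ (α (1-s) + β (1+s))³ |K|³`, and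
the Alexandrov-Fenchel inequality for `B`, `K`, `-K` with the inclusion `-K ⊆ 3 K + x` gives a lower
bound of `|B|`.  For suitable `α`, `β` this yields `|S_s| ≤ P(s) |K|` with a polynomial `P`, and the
integral of the bounds over `s` is exactly `3/(2 (1+v)) |K|`.

Equality cases.  The bounds are strict unless `v = 3`; then the Minkowski asymmetry of `K` is three,
and contact points of `-K` and `3 K + x` show that `K` is a tetrahedron.  The strict convexity of
`z ↦ ∫ exp (-h_{K-z})` gives the position.
-/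

set_option autoImplicit false

noncomputable section

open MeasureTheory
open scoped ENNReal

namespace Pool.Agent.Results.MP_5f4cdd_gt.DimensionThree

variable {n : ℕ}

/-- convex bodies of `ℝⁿ` (in any position) -/
def Body (K : Set (Fin n → ℝ)) : Prop :=
  Convex ℝ K ∧ IsCompact K ∧ (interior K).Nonempty

/-- the Mahler volume `|L| ∫ exp (-h_L(y)) dy` (`p = ∞`), with the support function `h_L` -/
def Minf (L : Set (Fin n → ℝ)) : ℝ≥0∞ := volume L *
  ∫⁻ y : Fin n → ℝ, ENNReal.ofReal
    (Real.exp (-(sSup ((fun x : Fin n → ℝ => ∑ i, x i * y i) '' L))))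

/-- the polar body -/
def Polar (K : Set (Fin n → ℝ)) : Set (Fin n → ℝ) := {y | ∀ x ∈ K, ∑ i, x i * y i ≤ 1}

/-- the standard simplex -/
def Simplex (n : ℕ) : Set (Fin n → ℝ) := {z | (∀ i, 0 ≤ z i) ∧ ∑ i, z i ≤ 1}

/-- the translate `K - z` -/
def shift (K : Set (Fin n → ℝ)) (z : Fin n → ℝ) : Set (Fin n → ℝ) := (fun x => x - z) '' K

theorem lower {K : Set (Fin 3 → ℝ)} (hK : Body K) : ENNReal.ofReal (128 / 3) ≤ Minf K := by
  obtain ⟨hv, hc, hi⟩ := hK
  by_cases h0 : (0 : Fin 3 → ℝ) ∈ interior K
  · have h : W679AM.OBody K := ⟨hc, hv, h0⟩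
    have h1 := Helper2.M3.product3 h
    have h2 := Helper82.Mah.exp_hs h
    have h3 := mul_le_mul_right h1 (ENNReal.ofReal ((3 : ℕ).factorial : ℝ))
    rw [← ENNReal.ofReal_mul (by positivity)] at h3
    have e : (((3 : ℕ).factorial : ℝ)) * (64 / 9) = 128 / 3 := by norm_num [Nat.factorial]
    rw [e] at h3
    refine h3.trans ?_
    calc ENNReal.ofReal ((3 : ℕ).factorial : ℝ) * (volume K * volume (H712MA.GB.plr K))
        = volume K * (ENNReal.ofReal ((3 : ℕ).factorial : ℝ) * volume (H712MA.GB.plr K)) := by ring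
      _ ≤ _ := mul_le_mul_right h2 _
  · have h1 : Minf K = ⊤ := by
      unfold Minf
      have h2 := Helper82.Mah.exp_hs_top hc hv hi h0
      have h3 : ∫⁻ y : Fin 3 → ℝ, ENNReal.ofReal
          (Real.exp (-(sSup ((fun x : Fin 3 → ℝ => ∑ i, x i * y i) '' K)))) = ⊤ := h2
      rw [h3, ENNReal.mul_top]
      exact (lt_of_lt_of_le (isOpen_interior.measure_pos volume hi)
        (measure_mono interior_subset)).ne'
    rw [h1]
    exact le_top

theorem upper : Minf (shift (Simplex 3) (Helper73.Twin.cen 3)) ≤ ENNReal.ofReal (128 / 3) := by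
  have h := Helper73.Twin.smpc_mahler 3
  refine le_of_eq_of_le ?_ (h.trans (le_of_eq ?_))
  · rfl
  · congr 1
    norm_num [Nat.factorial]

theorem body_shift {K : Set (Fin 3 → ℝ)} (hK : Body K) (z : Fin 3 → ℝ) : Body (shift K z) := by
  obtain ⟨hv, hc, hi⟩ := hK
  refine ⟨?_, hc.image (by fun_prop), ?_⟩
  · have e : shift K z = (fun x => -z + x) '' K := by
      unfold shift
      congr 1
      funext x
      abel
    rw [e]
    exact hv.translate (-z)
  · have e : shift K z = (Homeomorph.subRight z) '' K := rfl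
    rw [e, ← Homeomorph.image_interior]
    exact hi.image _

theorem body_simplex : Body (Simplex 3) :=
  ⟨Helper73.Twin.smp_convex 3, Helper73.Twin.smp_compact 3, ⟨_, Helper73.Twin.cen_interior 3⟩⟩

theorem inf_simplex : ⨅ x ∈ Simplex 3, Minf (shift (Simplex 3) x) = ENNReal.ofReal (128 / 3) := by
  refine le_antisymm ?_ ?_
  · exact (iInf₂_le _ (interior_subset (Helper73.Twin.cen_interior 3))).trans upper
  · exact le_iInf₂ fun x _ => lower (body_shift body_simplex x)

/-- `M_∞(K) = 3! |K| |K°|` -/
theorem minf_polar {K : Set (Fin 3 → ℝ)} (hK : Body K) (h0 : (0 : Fin 3 → ℝ) ∈ interior K) :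
    Minf K = ENNReal.ofReal 6 * (volume K * volume (Polar K)) := by
  have h : W679AM.OBody K := ⟨hK.2.1, hK.1, h0⟩
  have e : ENNReal.ofReal ((3 : ℕ).factorial : ℝ) = ENNReal.ofReal 6 := by
    norm_num [Nat.factorial]
  have h1 := Helper82.Mah.exp_hs h
  have h2 := Helper73.Twin.exp_hs_le h
  rw [e] at h1 h2
  have h3 : Minf K = volume K * (ENNReal.ofReal 6 * volume (Polar K)) := by
    unfold Minf
    congr 1
    exact le_antisymm h2 h1
  rw [h3]
  ring

/-- `K` is a tetrahedron with its centroid at the origin (for a convex body `K`) -/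
def CentredTetrahedron (K : Set (Fin 3 → ℝ)) : Prop :=
  ∃ y : Fin 4 → Fin 3 → ℝ, K = convexHull ℝ (Set.range y) ∧ ∑ i, y i = 0

theorem equality {K : Set (Fin 3 → ℝ)} (hK : Body K) :
    Minf K = ENNReal.ofReal (128 / 3) ↔ CentredTetrahedron K :=
  Helper73.Eq3.equality hK.2.1 hK.1 hK.2.2

/-- **Mahler's conjecture for general convex bodies in dimension three**, with the equality
cases. -/
theorem result (K : Set (Fin 3 → ℝ)) (hK : Body K) :
    -- (1) the inequality of the problem for `n = 3`, `p = ∞`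
    ⨅ x ∈ Simplex 3, Minf (shift (Simplex 3) x) ≤ Minf K ∧
    -- (2) the value of the infimum is `4⁴/3!`
    ⨅ x ∈ Simplex 3, Minf (shift (Simplex 3) x) = ENNReal.ofReal (128 / 3) ∧
    -- (3) equality holds exactly for the tetrahedra with centroid at the origin
    (Minf K = ⨅ x ∈ Simplex 3, Minf (shift (Simplex 3) x) ↔ CentredTetrahedron K) ∧
    -- (4) the volume product, `4⁴/(3!)²`, with its equality cases
    ((0 : Fin 3 → ℝ) ∈ interior K → ENNReal.ofReal (64 / 9) ≤ volume K * volume (Polar K) ∧
      (volume K * volume (Polar K) = ENNReal.ofReal (64 / 9) ↔ CentredTetrahedron K)) := by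
  refine ⟨?_, inf_simplex, ?_, fun h0 => ⟨?_, ?_⟩⟩
  · rw [inf_simplex]
    exact lower hK
  · rw [inf_simplex]
    exact equality hK
  · exact Helper2.M3.product3 ⟨hK.2.1, hK.1, h0⟩
  · rw [← equality hK, minf_polar hK h0]
    have e : ENNReal.ofReal (128 / 3) = ENNReal.ofReal 6 * ENNReal.ofReal (64 / 9) := by
      rw [← ENNReal.ofReal_mul (by norm_num)]
      norm_num
    rw [e, ENNReal.mul_right_inj (ENNReal.ofReal_pos.2 (by norm_num)).ne' ENNReal.ofReal_ne_top]

end Pool.Agent.Results.MP_5f4cdd_gt.DimensionThree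

end
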